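import Mathlib
import Pool.Agent.Y734.I.HBAR.A

/-!
# Project Y734/I, HBARX: general subfamilies of the degenerate arrangement
-/

set_option autoImplicit false

namespace Pool.Agent.Y734.I.HBARX

open Finset Pool.Agent.Y734.I.HBAR

variable {n q : ℕ} {M : Type}

/-- the rows -/
noncomputable def row {R : Type} [CommRing R] [Algebra ℚ R] (C A : Finset (Fin q))
    (ψ : Fin q → Fin q) (v : Fin q → M → ℚ) (Λ : Fin q × Fin q → R) (i : Fin q) (m : M) : R :=
  if i ∈ C then Λ (ψ i, ψ i) * algebraMap ℚ R (v (ψ i) m) +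
    ∑ a ∈ A, Λ (ψ i, a) * algebraMap ℚ R (v a m)
  else algebraMap ℚ R (v i m)

lemma row_map {R R' : Type} [CommRing R] [Algebra ℚ R] [CommRing R'] [Algebra ℚ R']
    (f : R →+* R') (C A : Finset (Fin q)) (ψ : Fin q → Fin q) (v : Fin q → M → ℚ)
    (Λ : Fin q × Fin q → R) (i : Fin q) (m : M) :
    f (row C A ψ v Λ i m) = row C A ψ v (fun z => f (Λ z)) i m := by
  unfold row
  have h : ∀ y : ℚ, f (algebraMap ℚ R y) = algebraMap ℚ R' y := fun y => by
    rw [← RingHom.comp_apply]
    exact congrArg (fun g : ℚ →+* R' => g y) (Subsingleton.elim _ _)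
  split_ifs
  · rw [map_add, map_sum, map_mul, h]
    congr 1
    exact sum_congr rfl fun a _ => by rw [map_mul, h]
  · exact h _

variable {C A J : Finset (Fin q)} {φ ψ : Fin q → Fin q}

/-- a special choice of the parameters -/
lemma special (hA : A.card + 1 = n) (hAC : Disjoint A C) (hJC : Disjoint J C)
    (hJA : Disjoint J A) (hφ : ∀ j ∈ J, φ j ∈ C) (hψ : ∀ i ∈ C, ψ i ∈ J ∧ φ (ψ i) = i)
    (hψφ : ∀ j ∈ J, ψ (φ j) = j)
    {B : Finset (Fin q)} (hB : B.card = n + 1)
    (hbad : ∀ j ∈ J, B ≠ insert j (insert (φ j) A)) :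
    ∃ (l : Fin q × Fin q → ℚ) (f : Fin q → Fin q), (∀ i ∈ B, ∀ i' ∈ B, f i = f i' → i = i') ∧
      ∀ (v : Fin q → M → ℚ), ∀ i ∈ B, ∀ m, row C A ψ v l i m = v (f i) m := by
  classical
  have dAC : ∀ x ∈ A, x ∉ C := fun x hx => disjoint_left.1 hAC hx
  have dJC : ∀ x ∈ J, x ∉ C := fun x hx => disjoint_left.1 hJC hx
  have dJA : ∀ x ∈ J, x ∉ A := fun x hx => disjoint_left.1 hJA hx
  set S := J.filter (fun j => j ∈ B ∧ φ j ∈ B) with hS
  have mS : ∀ j, j ∈ S ↔ j ∈ J ∧ j ∈ B ∧ φ j ∈ B := fun j => by rw [hS, mem_filter]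
  have hφinj : ∀ j ∈ J, ∀ j' ∈ J, φ j = φ j' → j = j' := fun j hj j' hj' he => by
    rw [← hψφ j hj, he, hψφ j' hj']
  -- counting
  have hcard : S.card ≤ (A \ B).card := by
    have h1 : (A ∩ B) ∪ (S ∪ S.image φ) ⊆ B := by
      intro x hx
      rcases mem_union.1 hx with h | h
      · exact (mem_inter.1 h).2
      · rcases mem_union.1 h with h | h
        · exact ((mS x).1 h).2.1
        · obtain ⟨j, hj, rfl⟩ := mem_image.1 h
          exact ((mS j).1 hj).2.2
    have d1 : Disjoint S (S.image φ) := disjoint_left.2 fun x hx hx' => by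
      obtain ⟨j, hj, rfl⟩ := mem_image.1 hx'
      exact dJC _ ((mS _).1 hx).1 (hφ j ((mS j).1 hj).1)
    have d2 : Disjoint (A ∩ B) (S ∪ S.image φ) := disjoint_left.2 fun x hx hx' => by
      have hxA := (mem_inter.1 hx).1
      rcases mem_union.1 hx' with h | h
      · exact dJA _ ((mS x).1 h).1 hxA
      · obtain ⟨j, hj, rfl⟩ := mem_image.1 h
        exact dAC _ hxA (hφ j ((mS j).1 hj).1)
    have h2 := card_le_card h1
    rw [card_union_of_disjoint d2, card_union_of_disjoint d1,
      card_image_of_injOn (fun j hj j' hj' he => hφinj j ((mS j).1 hj).1 j' ((mS j').1 hj').1 he),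
      hB] at h2
    have h3 := card_sdiff_add_card_inter A B
    rcases Nat.lt_or_ge S.card 2 with h4 | h4
    · rcases Nat.eq_zero_or_pos S.card with h5 | h5
      · omega
      · have h6 : S.card = 1 := by omega
        by_contra hlt
        have h7 : (A \ B).card = 0 := by omega
        have h8 : A ⊆ B := by
          rw [card_eq_zero] at h7
          exact sdiff_eq_empty_iff_subset.1 h7
        obtain ⟨j, hj⟩ := card_pos.1 h5
        obtain ⟨hjJ, hjB, hφB⟩ := (mS j).1 hj
        apply hbad j hjJ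
        have h9 : insert j (insert (φ j) A) ⊆ B := by
          intro x hx
          rcases mem_insert.1 hx with rfl | hx
          · exact hjB
          · rcases mem_insert.1 hx with rfl | hx
            · exact hφB
            · exact h8 hx
        have h10 : φ j ∉ A := fun h => dAC _ h (hφ j hjJ)
        have h11 : j ∉ insert (φ j) A := fun h => by
          rcases mem_insert.1 h with h | h
          · exact dJC _ hjJ (h ▸ hφ j hjJ)
          · exact dJA _ hjJ h
        refine (eq_of_subset_of_card_le h9 ?_).symm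
        rw [card_insert_of_notMem h11, card_insert_of_notMem h10, hB]
        omega
    · omega
  obtain ⟨α, hα, hαi⟩ := exists_inj hcard
  set f : Fin q → Fin q := fun i => if i ∈ C then (if ψ i ∈ B then α (ψ i) else ψ i) else i
    with hf
  have hfC : ∀ i, i ∉ C → f i = i := fun i hi => by simp [hf, hi]
  have hψS : ∀ i ∈ B, i ∈ C → ψ i ∈ B → ψ i ∈ S := fun i hi hiC hψB =>
    (mS _).2 ⟨(hψ i hiC).1, hψB, by rw [(hψ i hiC).2]; exact hi⟩
  have hf1 : ∀ i ∈ B, i ∈ C → ψ i ∈ B → f i = α (ψ i) := fun i _ hiC hψB => by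
    simp [hf, hiC, hψB]
  have hf2 : ∀ i ∈ B, i ∈ C → ψ i ∉ B → f i = ψ i := fun i _ hiC hψB => by
    simp [hf, hiC, hψB]
  refine ⟨fun z => if z.1 ∈ B then (if z.2 = α z.1 then 1 else 0) else
    (if z.2 = z.1 then 1 else 0), f, ?_, ?_⟩
  · have hψinj : ∀ i ∈ C, ∀ i' ∈ C, ψ i = ψ i' → i = i' := fun i hi i' hi' he => by
      rw [← (hψ i hi).2, he, (hψ i' hi').2]
    -- the images of elements of `C` are outside of `B`
    have hout : ∀ i ∈ B, i ∈ C → f i ∉ B := by
      intro i hi hiC
      by_cases hψB : ψ i ∈ B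
      · rw [hf1 i hi hiC hψB]
        exact (mem_sdiff.1 (hα _ (hψS i hi hiC hψB))).2
      · rw [hf2 i hi hiC hψB]
        exact hψB
    intro i hi i' hi' he
    by_cases hiC : i ∈ C <;> by_cases hiC' : i' ∈ C
    · by_cases h1 : ψ i ∈ B <;> by_cases h2 : ψ i' ∈ B
      · rw [hf1 i hi hiC h1, hf1 i' hi' hiC' h2] at he
        exact hψinj i hiC i' hiC' (hαi _ (hψS i hi hiC h1) _ (hψS i' hi' hiC' h2) he)
      · rw [hf1 i hi hiC h1, hf2 i' hi' hiC' h2] at he
        exact absurd (he ▸ (mem_sdiff.1 (hα _ (hψS i hi hiC h1))).1) (dJA _ (hψ i' hiC').1)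
      · rw [hf2 i hi hiC h1, hf1 i' hi' hiC' h2] at he
        exact absurd (he ▸ (mem_sdiff.1 (hα _ (hψS i' hi' hiC' h2))).1) (dJA _ (hψ i hiC).1)
      · rw [hf2 i hi hiC h1, hf2 i' hi' hiC' h2] at he
        exact hψinj i hiC i' hiC' he
    · rw [hfC i' hiC'] at he
      exact absurd (he ▸ hi') (hout i hi hiC)
    · rw [hfC i hiC] at he
      exact absurd (he.symm ▸ hi) (hout i' hi' hiC')
    · rw [hfC i hiC, hfC i' hiC'] at he
      exact he
  · intro v i hi m
    unfold row
    simp only [eq_ratCast, Rat.cast_id]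
    by_cases hiC : i ∈ C
    · rw [if_pos hiC]
      have hJ := (hψ i hiC).1
      by_cases hψB : ψ i ∈ B
      · have hs := hψS i hi hiC hψB
        have hαA : α (ψ i) ∈ A := (mem_sdiff.1 (hα _ hs)).1
        have h0 : ψ i ≠ α (ψ i) := fun h => dJA _ hJ (h ▸ hαA)
        have h1 : ∑ a ∈ A, (if a = α (ψ i) then (1 : ℚ) else 0) * v a m = v (α (ψ i)) m := by
          rw [sum_eq_single (α (ψ i))]
          · simp
          · intro a _ ha
            simp [ha]
          · intro h
            exact absurd hαA h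
        simp only [hψB, if_true]
        rw [if_neg h0, h1, hf1 i hi hiC hψB, zero_mul, zero_add]
      · have h1 : ∑ a ∈ A, (if a = ψ i then (1 : ℚ) else 0) * v a m = 0 :=
          sum_eq_zero fun a ha => by
            have h2 : a ≠ ψ i := fun h => dJA _ hJ (by rw [← h]; exact ha)
            rw [if_neg h2, zero_mul]
        simp only [hψB, if_false, if_true]
        rw [h1, hf2 i hi hiC hψB, one_mul, add_zero]
    · rw [if_neg hiC, hfC i hiC]

end Pool.Agent.Y734.I.HBARX
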