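import Mathlib
import Pool.Agent.Y734.I.StmsX
import Pool.Agent.Y734.I.HBARX.A

/-!
# Project Y734/I, HBARX: a degenerate arrangement without base points
-/

set_option autoImplicit false

namespace Pool.Agent.Y734.I.HBARX

open Finset

variable {N n q : ℕ}

/-- an arrangement such that all the values of `Ψ` are different from zero -/
lemma exists_vv (q : ℕ) (Ψ : MvPolynomial (Fin (n + 1) × Fin (N + 1)) ℚ) (hΨ : Ψ ≠ 0) :
    ∃ v : Fin q → Fin (N + 1) → ℚ, ∀ f : Fin (n + 1) → Fin q, Function.Injective f →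
      MvPolynomial.eval (fun ij => v (f ij.1) ij.2) Ψ ≠ 0 := by
  classical
  set Φ : MvPolynomial (Fin q × Fin (N + 1)) ℚ :=
    ∏ f ∈ (univ : Finset (Fin (n + 1) → Fin q)).filter Function.Injective,
      MvPolynomial.rename (fun ij : Fin (n + 1) × Fin (N + 1) => (f ij.1, ij.2)) Ψ with hΦ
  have hne : Φ ≠ 0 := by
    rw [hΦ, prod_ne_zero_iff]
    intro f hf h0
    have hinj : Function.Injective (fun ij : Fin (n + 1) × Fin (N + 1) => (f ij.1, ij.2)) := by
      rintro ⟨a, b⟩ ⟨c, d⟩ h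
      have h' := Prod.ext_iff.1 h
      exact Prod.ext ((mem_filter.1 hf).2 h'.1) h'.2
    exact hΨ (MvPolynomial.rename_injective _ hinj (by rw [h0, map_zero]))
  obtain ⟨l, hl⟩ : ∃ l, MvPolynomial.eval l Φ ≠ 0 := by
    by_contra hcon
    push Not at hcon
    exact hne (MvPolynomial.funext fun x => by rw [hcon, map_zero])
  refine ⟨fun i m => l (i, m), fun f hf => ?_⟩
  rw [hΦ, map_prod, prod_ne_zero_iff] at hl
  have := hl f (mem_filter.2 ⟨mem_univ _, hf⟩)
  rwa [MvPolynomial.eval_rename] at this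

/-- the values of `Ψ` -/
noncomputable def pt {R : Type} [CommRing R] [Algebra ℚ R]
    (Ψ : MvPolynomial (Fin (n + 1) × Fin (N + 1)) ℚ) (C A : Finset (Fin q))
    (ψ : Fin q → Fin q) (v : Fin q → Fin (N + 1) → ℚ) (Λ : Fin q × Fin q → R)
    (B : Finset (Fin q)) (hB : B.card = n + 1) : R :=
  MvPolynomial.aeval (fun sm : Fin (n + 1) × Fin (N + 1) =>
    row C A ψ v Λ ((B.equivFinOfCardEq hB).symm sm.1 : Fin q) sm.2) Ψ

lemma pt_map {R R' : Type} [CommRing R] [Algebra ℚ R] [CommRing R'] [Algebra ℚ R']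
    (f : R →ₐ[ℚ] R') (Ψ : MvPolynomial (Fin (n + 1) × Fin (N + 1)) ℚ) (C A : Finset (Fin q))
    (ψ : Fin q → Fin q) (v : Fin q → Fin (N + 1) → ℚ) (Λ : Fin q × Fin q → R)
    (B : Finset (Fin q)) (hB : B.card = n + 1) :
    f (pt Ψ C A ψ v Λ B hB) = pt Ψ C A ψ v (fun z => f (Λ z)) B hB := by
  unfold pt
  rw [MvPolynomial.comp_aeval_apply]
  congr 2
  ext sm
  exact row_map (f : R →+* R') C A ψ v Λ _ _

variable {C A J : Finset (Fin q)} {φ ψ : Fin q → Fin q}

lemma exists_l {Ψ : MvPolynomial (Fin (n + 1) × Fin (N + 1)) ℚ} {v : Fin q → Fin (N + 1) → ℚ}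
    (hv : ∀ f : Fin (n + 1) → Fin q, Function.Injective f →
      MvPolynomial.eval (fun ij => v (f ij.1) ij.2) Ψ ≠ 0)
    (hA : A.card + 1 = n) (hAC : Disjoint A C) (hJC : Disjoint J C)
    (hJA : Disjoint J A) (hφ : ∀ j ∈ J, φ j ∈ C) (hψ : ∀ i ∈ C, ψ i ∈ J ∧ φ (ψ i) = i)
    (hψφ : ∀ j ∈ J, ψ (φ j) = j) :
    ∃ l : Fin q × Fin q → ℚ, ∀ (B : Finset (Fin q)) (hB : B.card = n + 1),
      (∀ j ∈ J, B ≠ insert j (insert (φ j) A)) → pt Ψ C A ψ v l B hB ≠ 0 := by
  classical
  set 𝓑 : Finset (Finset (Fin q)) := (powersetCard (n + 1) univ).filter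
    (fun B => ∀ j ∈ J, B ≠ insert j (insert (φ j) A)) with h𝓑
  have hm : ∀ B ∈ 𝓑, B.card = n + 1 := fun B hB => (mem_powersetCard.1 (mem_filter.1 hB).1).2
  set Φ : MvPolynomial (Fin q × Fin q) ℚ :=
    ∏ B ∈ 𝓑.attach, pt Ψ C A ψ v (fun z => MvPolynomial.X z) B.1 (hm _ B.2) with hΦ
  have hev : ∀ (l : Fin q × Fin q → ℚ) (B : Finset (Fin q)) (hB : B.card = n + 1),
      MvPolynomial.eval l (pt Ψ C A ψ v (fun z => MvPolynomial.X z) B hB) =
        pt Ψ C A ψ v l B hB := by
    intro l B hB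
    have h1 := pt_map (MvPolynomial.aeval l : MvPolynomial (Fin q × Fin q) ℚ →ₐ[ℚ] ℚ) Ψ C A ψ v
      (fun z => MvPolynomial.X z) B hB
    simp only [MvPolynomial.aeval_X] at h1
    rw [← h1]
    rfl
  have hne : Φ ≠ 0 := by
    rw [hΦ, prod_ne_zero_iff]
    intro B _ h0
    obtain ⟨l, f, hf, hl⟩ := special (M := Fin (N + 1)) hA hAC hJC hJA hφ hψ hψφ (hm _ B.2)
      (mem_filter.1 B.2).2
    have h1 := hev l B.1 (hm _ B.2)
    rw [h0, map_zero] at h1
    unfold pt at h1
    set e := (B.1.equivFinOfCardEq (hm _ B.2)).symm with he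
    refine hv (fun s => f (e s)) (fun s s' hs => e.injective (Subtype.ext
      (hf _ (e s).2 _ (e s').2 hs))) ?_
    have h2 : (fun sm : Fin (n + 1) × Fin (N + 1) =>
        row (R := ℚ) C A ψ v l (e sm.1 : Fin q) sm.2) = fun ij => v (f (e ij.1)) ij.2 := by
      ext sm
      exact hl v _ (e sm.1).2 _
    rw [h2] at h1
    exact h1.symm
  obtain ⟨l, hl⟩ : ∃ l, MvPolynomial.eval l Φ ≠ 0 := by
    by_contra hcon
    push Not at hcon
    exact hne (MvPolynomial.funext fun x => by rw [hcon, map_zero])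
  refine ⟨l, fun B hB hbad => ?_⟩
  rw [hΦ, map_prod, prod_ne_zero_iff] at hl
  have hBm : B ∈ 𝓑 := mem_filter.2 ⟨mem_powersetCard.2 ⟨subset_univ _, hB⟩, hbad⟩
  have := hl ⟨B, hBm⟩ (mem_attach _ _)
  rwa [hev] at this

lemma point_zero {𝓕 : Set (MvPolynomial (Fin (N + 1)) ℚ)}
    {Ψ : MvPolynomial (Fin (n + 1) × Fin (N + 1)) ℚ} (hΨ : Psi n 𝓕 Ψ)
    {v : Fin q → Fin (N + 1) → ℚ} {l : Fin q × Fin q → ℚ}
    {B : Finset (Fin q)} (hB : B.card = n + 1)
    (h : pt Ψ C A ψ v l B hB ≠ 0) {κ : Type} [Field κ] [Algebra ℚ κ] {p : Fin (N + 1) → κ}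
    (hX : OnX 𝓕 p)
    (hp : ∀ i ∈ B, ev (fun m => row (R := ℚ) C A ψ v l i m) p = 0) : p = 0 := by
  by_contra hne
  obtain ⟨s, hs⟩ := hΨ.2 (fun s m => row (R := ℚ) C A ψ v l
    ((B.equivFinOfCardEq hB).symm s : Fin q) m) h κ p hne hX
  exact hs (hp _ ((B.equivFinOfCardEq hB).symm s).2)

end Pool.Agent.Y734.I.HBARX

namespace Pool.Agent.Y734.I

open Finset in
theorem HBARX.hbarX : HbarXStmt := by
  classical
  intro N n r q hn hq 𝓕 Ψ hΨ C A J hA hAC hJC hJA φ hφ
  have hφC : ∀ j ∈ J, φ j ∈ C := fun j hj => hφ.mapsTo hj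
  set ψ : Fin q → Fin q := fun i => if h : ∃ j ∈ J, φ j = i then h.choose else i with hψd
  have hψ : ∀ i ∈ C, ψ i ∈ J ∧ φ (ψ i) = i := by
    intro i hi
    have h : ∃ j ∈ J, φ j = i := hφ.surjOn hi
    have e : ψ i = h.choose := by simp only [hψd]; rw [dif_pos h]
    rw [e]
    exact h.choose_spec
  have hψφ : ∀ j ∈ J, ψ (φ j) = j := fun j hj =>
    hφ.injOn (hψ _ (hφC j hj)).1 hj (hψ _ (hφC j hj)).2
  have dAC : ∀ x ∈ A, x ∉ C := fun x hx => disjoint_left.1 hAC hx
  have dJC : ∀ x ∈ J, x ∉ C := fun x hx => disjoint_left.1 hJC hx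
  have dJA : ∀ x ∈ J, x ∉ A := fun x hx => disjoint_left.1 hJA hx
  obtain ⟨v, hv⟩ := HBARX.exists_vv q Ψ hΨ.1
  obtain ⟨l, hl⟩ := HBARX.exists_l (n := n) hv hA hAC hJC hJA hφC hψ hψφ
  set H : Fin q → Fin (N + 1) → ℚ := fun i m => HBARX.row (R := ℚ) C A ψ v l i m with hH
  have hHn : ∀ i, i ∉ C → H i = fun m => v i m := by
    intro i hi
    ext m
    simp [hH, HBARX.row, hi]
  refine ⟨H, fun j hj => ?_, fun κ _ _ p hp hpX => ?_⟩
  · have e : H (φ j) = l (j, j) • H j + ∑ a ∈ A, l (j, a) • H a := by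
      ext m
      rw [hHn j (dJC j hj)]
      simp only [hH, HBARX.row, hφC j hj, if_true, hψφ j hj, eq_ratCast, Rat.cast_id,
        Pi.add_apply, Finset.sum_apply, Pi.smul_apply, smul_eq_mul]
      congr 1
      refine sum_congr rfl fun a ha => ?_
      rw [if_neg (dAC a ha)]
    rw [e]
    refine Submodule.add_mem _ (Submodule.smul_mem _ _ (Submodule.subset_span ⟨j, by simp, rfl⟩))
      (Submodule.sum_mem _ fun a ha => Submodule.smul_mem _ _ (Submodule.subset_span ⟨a, ?_, rfl⟩))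
    simp [ha]
  · by_contra hcon
    push Not at hcon
    let Z : (Fin (N + 1) → κ) → Finset (Fin q) := fun x => univ.filter (fun i => ev (H i) x = 0)
    have mZ : ∀ x i, i ∈ Z x ↔ ev (H i) x = 0 := fun x i => by simp [Z]
    have hbadset : ∀ x : Fin (N + 1) → κ, x ≠ 0 → OnX 𝓕 x → ∀ B : Finset (Fin q),
        B.card = n + 1 → B ⊆ Z x → ∃ j ∈ J, B = insert j (insert (φ j) A) := by
      intro x hx hxX B hB hBZ
      by_contra h
      push Not at h
      exact hx (HBARX.point_zero hΨ hB (hl B hB h) hxX fun i hi => (mZ x i).1 (hBZ hi))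
    have hZ : ∀ x : Fin (N + 1) → κ, x ≠ 0 → OnX 𝓕 x → (Z x).card ≤ n ∨
        ∃ j ∈ J, Z x = insert j (insert (φ j) A) := by
      intro x hx hxX
      by_contra h
      push Not at h
      obtain ⟨h1, h2⟩ := h
      obtain ⟨B, hBZ, hB⟩ := exists_subset_card_eq (show n + 1 ≤ (Z x).card by omega)
      obtain ⟨j, hj, hBj⟩ := hbadset x hx hxX B hB hBZ
      have h3 : ∃ z ∈ Z x, z ∉ B := by
        by_contra h4
        push Not at h4
        exact h2 j hj (by rw [← hBj]; exact Subset.antisymm h4 hBZ)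
      obtain ⟨z, hz, hzB⟩ := h3
      obtain ⟨a, ha⟩ : A.Nonempty := card_pos.1 (by omega)
      have haB : a ∈ B := by rw [hBj]; simp [ha]
      have hB1 : (insert z (B.erase a)).card = n + 1 := by
        rw [card_insert_of_notMem (fun h => hzB (mem_of_mem_erase h)), card_erase_of_mem haB, hB]
        omega
      obtain ⟨j', hj', hBj'⟩ := hbadset x hx hxX _ hB1 (by
        intro y hy
        rcases mem_insert.1 hy with rfl | hy
        · exact hz
        · exact hBZ (mem_of_mem_erase hy))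
      have h5 : a ∈ insert z (B.erase a) := by rw [hBj']; simp [ha]
      rcases mem_insert.1 h5 with h6 | h6
      · exact hzB (h6 ▸ haB)
      · exact (notMem_erase a B) h6
    have hcov : ∀ i, ∃ k, i ∈ Z (p k) := by
      intro i
      have h1 := hcon i
      unfold nf at h1
      obtain ⟨k, _, hk⟩ := prod_eq_zero_iff.1 h1
      exact ⟨k, (mZ _ _).2 hk⟩
    by_cases hm : ∃ k₀, ∃ j ∈ J, Z (p k₀) = insert j (insert (φ j) A)
    · obtain ⟨k₀, j₀, hj₀, hk₀⟩ := hm
      have two : ∀ k, ∀ j ∈ J, Z (p k) = insert j (insert (φ j) A) → (Z (p k) \ A).card ≤ 2 := by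
        intro k j hj h
        have h1 : Z (p k) \ A ⊆ {j, φ j} := by
          intro y hy
          obtain ⟨h2, h3⟩ := mem_sdiff.1 hy
          rw [h] at h2
          rcases mem_insert.1 h2 with h4 | h4
          · simp [h4]
          · rcases mem_insert.1 h4 with h5 | h5
            · simp [h5]
            · exact absurd h5 h3
        exact (card_le_card h1).trans card_le_two
      have hle : ∀ k, (Z (p k) \ A).card ≤ n := by
        intro k
        rcases hZ (p k) (hp k) (hpX k) with h | ⟨j, hj, h⟩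
        · exact (card_le_card sdiff_subset).trans h
        · exact (two k j hj h).trans hn
      have h1 : (univ : Finset (Fin q)) ⊆ A ∪ univ.biUnion (fun k => Z (p k) \ A) := by
        intro i _
        obtain ⟨k, hk⟩ := hcov i
        by_cases hiA : i ∈ A
        · exact mem_union_left _ hiA
        · exact mem_union_right _ (mem_biUnion.2 ⟨k, mem_univ _, mem_sdiff.2 ⟨hk, hiA⟩⟩)
      have h2 := (card_le_card h1).trans ((card_union_le _ _).trans
        (Nat.add_le_add_left card_biUnion_le _))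
      rw [← add_sum_erase univ _ (mem_univ k₀), card_univ, Fintype.card_fin] at h2
      have h3 := two k₀ j₀ hj₀ hk₀
      have h4 : ∑ k ∈ univ.erase k₀, (Z (p k) \ A).card ≤ (r - 1) * n := by
        refine (sum_le_card_nsmul _ _ n fun k _ => hle k).trans ?_
        rw [card_erase_of_mem (mem_univ _), card_univ, Fintype.card_fin, smul_eq_mul]
      have hr : 1 ≤ r := by
        have := k₀.2
        omega
      obtain ⟨r', rfl⟩ := Nat.exists_eq_add_of_le' hr
      rw [Nat.add_sub_cancel] at h4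
      rw [add_mul, one_mul] at hq
      omega
    · push Not at hm
      have h1 : (univ : Finset (Fin q)) ⊆ univ.biUnion (fun k => Z (p k)) := by
        intro i _
        obtain ⟨k, hk⟩ := hcov i
        exact mem_biUnion.2 ⟨k, mem_univ _, hk⟩
      have h2 := (card_le_card h1).trans card_biUnion_le
      have h3 : ∑ k, (Z (p k)).card ≤ r * n := by
        refine (sum_le_card_nsmul _ _ n fun k _ => ?_).trans ?_
        · rcases hZ (p k) (hp k) (hpX k) with h | ⟨j, hj, h⟩
          · exact h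
          · exact absurd h (hm k j hj)
        · rw [card_univ, Fintype.card_fin, smul_eq_mul]
      rw [card_univ, Fintype.card_fin] at h2
      omega

end Pool.Agent.Y734.I
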